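import Pool.Agent.Helper96.GU.St

/-!
Project GU, module DEN: clearing denominators.
-/

set_option autoImplicit false

namespace Pool.Agent.Helper69.GU

open Pool.Agent.Helper96.UT hiding StTOP TopV TopE tht Bd VC EC
open Pool.Agent.Helper96.GU

private theorem int_DEN {ι : Type} (T : Finset ι) (φ : ι → ℚ) :
    ∃ (d : ℚ) (θ : ι → ℤ), d ≠ 0 ∧ ∀ e ∈ T, (θ e : ℚ) = d * φ e := by
  classical
  refine ⟨((∏ e ∈ T, (φ e).den : ℕ) : ℚ), fun e => (((∏ e ∈ T, (φ e).den : ℕ) : ℚ) * φ e).num, ?_, ?_⟩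
  · have : (∏ e ∈ T, (φ e).den) ≠ 0 := Finset.prod_ne_zero_iff.2 fun e _ => (φ e).den_nz
    exact_mod_cast this
  · intro e he
    have h1 : ((∏ e ∈ T, (φ e).den : ℕ) : ℚ) * φ e =
        (((∏ x ∈ T.erase e, (φ x).den : ℕ) * (φ e).num : ℤ) : ℚ) := by
      rw [← Finset.mul_prod_erase T (fun e => (φ e).den) he]
      push_cast
      have h2 : (φ e) * ((φ e).den : ℚ) = (φ e).num := Rat.mul_den_eq_num (φ e)
      rw [← h2]
      ring
    simp only [h1]
    rw [Rat.num_intCast]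

private theorem sm_DEN {α Ω : Type} [MulAction (FreeGroup α) Ω] {T : Set (Ω × α)} {φ : Ω × α → ℚ}
    {θ : Ω × α → ℤ} {d : ℚ} (h : ∀ e ∈ T, (θ e : ℚ) = d * φ e) {y : Ω} {w : List (α × Bool)}
    (hw : InE T y w) : ((Sm θ y w : ℤ) : ℚ) = d * Sm φ y w := by
  have h1 := Sm_map (Int.castAddHom ℚ) θ y w
  have h2 := Sm_map (AddMonoidHom.mulLeft d) φ y w
  have h3 : Sm (fun e => (Int.castAddHom ℚ) (θ e)) y w = Sm (fun e => (AddMonoidHom.mulLeft d) (φ e)) y w :=
    Sm_congr_on (E := T) (fun e he => by simpa using h e he) hw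
  rw [h1, h2] at h3
  simpa using h3

theorem tDEN : StDEN := by
  classical
  intro α Z Ω _ E C v hH
  unfold Hh at hH
  push Not at hH
  obtain ⟨φ, hφ, -, x, q, hq, hc, hne⟩ := hH
  have hs : Z.s = FreeGroup.mk (seg Z.c 0 Z.n) := by
    rw [mk_seg, pre_zero, zero_add, inv_one, one_mul]
    rfl
  let ep : Ω → List (α × Bool) → Finset (Ω × α) := fun y w =>
    (Finset.univ : Finset (Fin w.length)).image fun i : Fin w.length => ed (vt y w (i : ℕ)) (w[(i : ℕ)]'i.2)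
  have hep : ∀ y w, InE ((ep y w : Finset (Ω × α)) : Set (Ω × α)) y w := by
    intro y w
    rw [InE_iff]
    intro i hi
    exact Finset.mem_coe.2 (Finset.mem_image.2 ⟨⟨i, hi⟩, Finset.mem_univ _, rfl⟩)
  let T : Finset (Ω × α) := (C.biUnion fun u => ep u (seg Z.c 0 Z.n)) ∪ ep x q
  obtain ⟨d, θ, hd, hθ⟩ := int_DEN T φ
  have hθ' : ∀ e ∈ (T : Set (Ω × α)), (θ e : ℚ) = d * φ e := fun e he => hθ e (Finset.mem_coe.1 he)
  refine ⟨θ, fun u hu => ?_, x, q, hq, hc, ?_⟩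
  · have h1 : InE (T : Set (Ω × α)) u (seg Z.c 0 Z.n) := by
      refine InE_mono ?_ (hep u _)
      intro e he
      exact Finset.mem_coe.2 (Finset.mem_union_left _ (Finset.mem_biUnion.2 ⟨u, hu, Finset.mem_coe.1 he⟩))
    have h2 := sm_DEN hθ' h1
    have h3 := hφ u hu
    rw [hs, Sa_mk] at h3 ⊢
    rw [h3, mul_zero] at h2
    exact_mod_cast h2
  · have h1 : InE (T : Set (Ω × α)) x q := by
      refine InE_mono ?_ (hep x q)
      intro e he
      exact Finset.mem_coe.2 (Finset.mem_union_right _ (Finset.mem_coe.1 he))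
    have h2 := sm_DEN hθ' h1
    intro h0
    rw [h0, Int.cast_zero] at h2
    rcases mul_eq_zero.1 h2.symm with h | h
    · exact hd h
    · exact hne h

end Pool.Agent.Helper69.GU
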