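import Pool.Agent.Helper96.GU.St
import Pool.Agent.Helper96.UT.M_IND

/-!
Project GU, module FOR: closed paths in a graph on which all cochains vanish on closed paths.
-/

set_option autoImplicit false

namespace Pool.Agent.Helper69.GU

open Pool.Agent.Helper96.UT hiding StTOP TopV TopE tht Bd VC EC
open Pool.Agent.Helper96.GU

private theorem edges_ne_FOR {α : Type} {Ω : Type} [MulAction (FreeGroup α) Ω]
    {E : Set (Ω × α)} {v : Ω} {w : List (α × Bool)} (hs : Simple E v w)
    {i j : ℕ} (hij : i < j) (hj : j < w.length) :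
    ed (vt v w i) (w[i]'(hij.trans hj)) ≠ ed (vt v w j) w[j] := by
  intro he
  have hi : i < w.length := hij.trans hj
  rcases ed_eq he with ⟨h1, _⟩ | ⟨h1, h2⟩
  · exact hs.inj i j hij hj h1.symm
  · rw [← vt_succ v w i hi] at h1
    rcases Nat.lt_or_ge (i + 1) j with h3 | h3
    · exact hs.inj (i + 1) j h3 hj h1.symm
    · have h4 : j = i + 1 := by omega
      subst h4
      exact hs.rd i hj h2

theorem tFOR : StFOR := by
  classical
  intro α Z Ω _ E v hH x q
  induction hn : q.length using Nat.strong_induction_on generalizing x q with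
  | _ n ihn =>
  subst hn
  intro hE hc
  have ihw : ∀ (x : Ω) (w' : List (α × Bool)), w'.length < q.length →
      InE E x w' → act x (FreeGroup.mk w') = x → FreeGroup.mk w' = 1 :=
    fun x w' hw' h1 h2 => ihn _ hw' x w' rfl h1 h2
  clear ihn
  rcases eq_or_ne q [] with rfl | hq0
  · exact mk_nil
  by_cases hrd : Rd q
  swap
  · obtain ⟨w₁, y, w₂, rfl⟩ := not_Rd_IND hrd
    rw [InE_append, InE_append, mk_append, mk_pair_IND, mul_one] at hE
    have hm : FreeGroup.mk (w₁ ++ [y, bar y] ++ w₂) = FreeGroup.mk (w₁ ++ w₂) := by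
      rw [mk_append, mk_append, mk_pair_IND, mul_one, mk_append]
    rw [hm] at hc ⊢
    apply ihw x (w₁ ++ w₂) (by simp) _ hc
    rw [InE_append]
    exact ⟨hE.1.1, hE.2⟩
  by_cases hinj : ∀ i j : ℕ, i < j → j < q.length → vt x q i ≠ vt x q j
  swap
  · push Not at hinj
    obtain ⟨i, j, hij, hj, he⟩ := hinj
    have hm1 : FreeGroup.mk (q.take j) =
        FreeGroup.mk (q.take i) * FreeGroup.mk ((q.take j).drop i) := by
      conv_lhs => rw [← List.take_append_drop i (q.take j)]
      rw [mk_append, List.take_take, min_eq_left hij.le]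
    have hm2 : FreeGroup.mk q = FreeGroup.mk (q.take j) * FreeGroup.mk (q.drop j) := by
      conv_lhs => rw [← List.take_append_drop j q]
      rw [mk_append]
    have hE1 : InE E x (q.take j) ∧
        InE E (act x (FreeGroup.mk (q.take j))) (q.drop j) := by
      rw [← InE_append, List.take_append_drop]
      exact hE
    have hE2 : InE E x (q.take i) ∧
        InE E (act x (FreeGroup.mk (q.take i))) ((q.take j).drop i) := by
      have h5 := hE1.1
      rw [← List.take_append_drop i (q.take j), InE_append, List.take_take,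
        min_eq_left hij.le] at h5
      exact h5
    unfold vt at he
    have hc2 : act (act x (FreeGroup.mk (q.take i))) (FreeGroup.mk ((q.take j).drop i)) =
        act x (FreeGroup.mk (q.take i)) := by
      rw [← act_mul, ← hm1, he]
    have hA := ihw (act x (FreeGroup.mk (q.take i)))
      ((q.take j).drop i) (by rw [List.length_drop, List.length_take]; omega) hE2.2 hc2
    have hm3 : FreeGroup.mk (q.take j) = FreeGroup.mk (q.take i) := by
      rw [hm1, hA, mul_one]
    have hm4 : FreeGroup.mk q = FreeGroup.mk (q.take i ++ q.drop j) := by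
      rw [hm2, hm3, mk_append]
    have hB := ihw x (q.take i ++ q.drop j) (by
      rw [List.length_append, List.length_take, List.length_drop]; omega) (by
      rw [InE_append]
      refine ⟨hE2.1, ?_⟩
      rw [← hm3]
      exact hE1.2) (by rw [← hm4]; exact hc)
    rw [hm4]
    exact hB
  exfalso
  have hs : Simple E x q := ⟨hE, hc, hrd, hinj⟩
  have h0 : 0 < q.length := List.length_pos_iff.2 hq0
  have key := hH (fun e => if e = ed (vt x q 0) q[0] then 1 else 0)
    (fun u hu => absurd hu (Finset.notMem_empty u)) (fun h hh => absurd hh (Set.notMem_empty h)) x q hE hc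
  rw [Sm_eq_sum, Finset.sum_eq_single (⟨0, h0⟩ : Fin q.length)] at key
  · revert key
    simp only [Fin.getElem_fin, if_true]
    split <;> simp
  · intro j _ hji
    have hne : ed (vt x q j) q[j] ≠ ed (vt x q 0) q[0] := by
      have hv : (j : ℕ) ≠ 0 := fun h => hji (Fin.ext h)
      exact (edges_ne_FOR hs (Nat.pos_of_ne_zero hv) j.2).symm
    simp only [Fin.getElem_fin] at hne ⊢
    simp only [if_neg hne, neg_zero, ite_self]
  · intro h
    exact absurd (Finset.mem_univ _) h

end Pool.Agent.Helper69.GU
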